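import Pool.Agent.AFJ.Stmts

/-! Squad AFJ (MP_1906c1_mp), row BET (helper44): the noise of the form. -/

set_option autoImplicit false

open scoped BigOperators Matrix

noncomputable section

namespace Pool.Agent.AFJ.H44

open Pool.Agent.LE.QF

variable {X : Type} [Fintype X] [DecidableEq X]

theorem Dl_mulVec' (K : Matrix X X ℝ) (f : X → ℝ) (x : X) :
    (Dl K *ᵥ f) x = ∑ y, K x y * (f x - f y) := by
  unfold Dl
  rw [Matrix.sub_mulVec, Pi.sub_apply, Matrix.mulVec_diagonal]
  simp only [Matrix.mulVec, dotProduct, mul_sub, Finset.sum_sub_distrib, Finset.sum_mul]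

theorem qf_Dl' (K : Matrix X X ℝ) (hK : ∀ x y, K x y = K y x) (f : X → ℝ) :
    qf (Dl K) f = 1 / 2 * ∑ x, ∑ y, K x y * (f x - f y) ^ 2 := by
  have h1 : qf (Dl K) f = ∑ x, ∑ y, K x y * (f x * (f x - f y)) := by
    unfold qf
    refine Finset.sum_congr rfl fun x _ => ?_
    rw [Dl_mulVec', Finset.mul_sum]
    refine Finset.sum_congr rfl fun y _ => ?_
    ring
  have h2 : ∑ x, ∑ y, K x y * (f x * (f x - f y)) = ∑ x, ∑ y, K x y * (f y * (f y - f x)) := by
    rw [Finset.sum_comm]
    refine Finset.sum_congr rfl fun x _ => Finset.sum_congr rfl fun y _ => ?_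
    rw [hK]
  have h3 : ∑ x, ∑ y, K x y * (f x - f y) ^ 2 = ∑ x, ∑ y, K x y * (f x * (f x - f y)) +
      ∑ x, ∑ y, K x y * (f y * (f y - f x)) := by
    rw [← Finset.sum_add_distrib]
    refine Finset.sum_congr rfl fun x _ => ?_
    rw [← Finset.sum_add_distrib]
    refine Finset.sum_congr rfl fun y _ => ?_
    ring
  rw [h3, ← h2, h1]
  ring

theorem bet_ : BetStmt := by
  intro X _ _ G κ A f hN
  refine ⟨?_, ?_, ?_, ?_, ?_, ?_⟩
  · intro c x hx
    have e1 : (Ec G κ A c *ᵥ f) x = ∑ y ∈ A, κ x * κ y * dK G c x y * (f x - f y) := by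
      unfold Ec
      rw [Dl_mulVec']
      unfold cdc
      simp only [hx, true_and, ite_mul, zero_mul]
      rw [Finset.sum_ite_mem, Finset.univ_inter]
    rw [e1]
    have e2 : (G x c * bet G κ A f x c).re =
        ∑ y ∈ A, κ y * (f x - f y) * ((starRingEnd ℂ) (G x y) * G x c * G c y).re := by
      unfold bet
      rw [Finset.mul_sum, Complex.re_sum]
      refine Finset.sum_congr rfl fun y _ => ?_
      have h : G x c * ((κ y : ℂ) * (starRingEnd ℂ) (G x y) * G c y * ((f x - f y : ℝ) : ℂ)) =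
          ((κ y * (f x - f y) : ℝ) : ℂ) * ((starRingEnd ℂ) (G x y) * G x c * G c y) := by
        push_cast
        ring
      rw [h, Complex.re_ofReal_mul]
    rw [e2, Finset.mul_sum, ← Finset.sum_neg_distrib]
    refine Finset.sum_congr rfl fun y _ => ?_
    unfold dK
    ring
  · intro c x hx
    unfold Ec
    rw [Dl_mulVec']
    refine Finset.sum_eq_zero fun y _ => ?_
    unfold cdc
    rw [if_neg (fun h => hx h.1), zero_mul]
  · intro c
    obtain ⟨t, ht⟩ : ∃ t : X → X → ℂ, t = fun x y => (κ x : ℂ) * (κ y : ℂ) *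
        (G x c * (starRingEnd ℂ) (G x y) * G c y) * ((f x - f y : ℝ) : ℂ) := ⟨_, rfl⟩
    have e1 : ∑ x ∈ A, (κ x : ℂ) * (G x c * bet G κ A f x c) = ∑ x ∈ A, ∑ y ∈ A, t x y := by
      refine Finset.sum_congr rfl fun x _ => ?_
      unfold bet
      rw [Finset.mul_sum, Finset.mul_sum]
      refine Finset.sum_congr rfl fun y _ => ?_
      rw [ht]
      ring
    have e2 : ∀ x y, t y x = -t x y := by
      intro x y
      rw [ht]
      simp only
      rw [hN.hs y c, hN.hs y x, hN.hs c x]
      push_cast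
      ring
    have e3 : ∑ x ∈ A, ∑ y ∈ A, t x y = -∑ x ∈ A, ∑ y ∈ A, t x y := by
      calc ∑ x ∈ A, ∑ y ∈ A, t x y = ∑ y ∈ A, ∑ x ∈ A, t x y := Finset.sum_comm
        _ = ∑ y ∈ A, ∑ x ∈ A, -t y x :=
            Finset.sum_congr rfl fun y _ => Finset.sum_congr rfl fun x _ => e2 y x
        _ = -∑ x ∈ A, ∑ y ∈ A, t x y := by simp only [Finset.sum_neg_distrib]
    rw [e1]
    have e4 : (2 : ℂ) * ∑ x ∈ A, ∑ y ∈ A, t x y = 0 := by linear_combination e3
    exact (mul_eq_zero.1 e4).resolve_left two_ne_zero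
  · intro x c
    have h1 : ‖bet G κ A f x c‖ ≤ ∑ y ∈ A, (Real.sqrt (κ y) * ‖G c y‖) *
        (Real.sqrt (κ y) * (‖G x y‖ * |f x - f y|)) := by
      unfold bet
      refine (norm_sum_le _ _).trans (le_of_eq (Finset.sum_congr rfl fun y _ => ?_))
      have hk := (hN.hκ y).le
      rw [norm_mul, norm_mul, norm_mul, RCLike.norm_conj, Complex.norm_real, Complex.norm_real,
        Real.norm_eq_abs, Real.norm_eq_abs, abs_of_nonneg hk]
      have h2 : Real.sqrt (κ y) * Real.sqrt (κ y) = κ y := Real.mul_self_sqrt hk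
      calc κ y * ‖G x y‖ * ‖G c y‖ * |f x - f y| =
          (Real.sqrt (κ y) * Real.sqrt (κ y)) * ‖G x y‖ * ‖G c y‖ * |f x - f y| := by rw [h2]
        _ = _ := by ring
    have h0 : 0 ≤ ∑ y ∈ A, (Real.sqrt (κ y) * ‖G c y‖) *
        (Real.sqrt (κ y) * (‖G x y‖ * |f x - f y|)) :=
      Finset.sum_nonneg fun y _ => by positivity
    calc ‖bet G κ A f x c‖ ^ 2 ≤ (∑ y ∈ A, (Real.sqrt (κ y) * ‖G c y‖) *
          (Real.sqrt (κ y) * (‖G x y‖ * |f x - f y|))) ^ 2 :=
          pow_le_pow_left₀ (norm_nonneg _) h1 2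
      _ ≤ (∑ y ∈ A, (Real.sqrt (κ y) * ‖G c y‖) ^ 2) *
          ∑ y ∈ A, (Real.sqrt (κ y) * (‖G x y‖ * |f x - f y|)) ^ 2 :=
          Finset.sum_mul_sq_le_sq_mul_sq _ _ _
      _ = rho G κ A c * DD G κ A f x := by
          unfold rho DD
          congr 1
          · refine Finset.sum_congr rfl fun y _ => ?_
            rw [mul_pow, Real.sq_sqrt (hN.hκ y).le]
            rfl
          · refine Finset.sum_congr rfl fun y _ => ?_
            rw [mul_pow, mul_pow, Real.sq_sqrt (hN.hκ y).le, sq_abs, ← mul_assoc]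
            rfl
  · intro x b
    obtain ⟨v, hv⟩ : ∃ v : X → ℂ, v = fun y => if y ∈ A then
        (starRingEnd ℂ) (G x y) * ((f x - f y : ℝ) : ℂ) else 0 := ⟨_, rfl⟩
    have h1 : ∀ c, ∑ y, G c y * ((κ y : ℂ) * v y) = bet G κ A f x c := by
      intro c
      rw [hv]
      unfold bet
      simp only [mul_ite, mul_zero]
      rw [Finset.sum_ite_mem, Finset.univ_inter]
      refine Finset.sum_congr rfl fun y _ => ?_
      ring
    have h2 : ∑ y, κ y * ‖v y‖ ^ 2 = DD G κ A f x := by
      have h3 : ∀ y, κ y * ‖v y‖ ^ 2 =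
          if y ∈ A then κ y * KK G x y * (f x - f y) ^ 2 else 0 := by
        intro y
        rw [hv]
        simp only
        split_ifs
        · rw [norm_mul, RCLike.norm_conj, Complex.norm_real, Real.norm_eq_abs, mul_pow, sq_abs,
            ← mul_assoc]
          rfl
        · rw [norm_zero, zero_pow two_ne_zero, mul_zero]
      unfold DD
      simp only [h3]
      rw [Finset.sum_ite_mem, Finset.univ_inter]
    have h3 := hN.hn v
    rw [h2] at h3
    simp only [h1] at h3
    exact (Finset.sum_le_sum_of_subset_of_nonneg (Finset.subset_univ b) fun c _ _ =>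
      mul_nonneg (hN.hκ c).le (sq_nonneg _)).trans h3
  · unfold EE
    rw [qf_Dl']
    · congr 1
      unfold cd DD
      have h1 : ∀ x, ∑ y, (if x ∈ A ∧ y ∈ A then κ x * κ y * KK G x y else 0) *
          (f x - f y) ^ 2 = if x ∈ A then
            κ x * ∑ y ∈ A, κ y * KK G x y * (f x - f y) ^ 2 else 0 := by
        intro x
        by_cases hx : x ∈ A
        · simp only [hx, true_and, if_true, ite_mul, zero_mul]
          rw [Finset.sum_ite_mem, Finset.univ_inter, Finset.mul_sum]
          refine Finset.sum_congr rfl fun y _ => ?_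
          ring
        · simp only [hx, false_and, if_false, zero_mul, Finset.sum_const_zero]
      simp only [h1]
      rw [Finset.sum_ite_mem, Finset.univ_inter]
    · intro x y
      unfold cd KK
      by_cases h : x ∈ A ∧ y ∈ A
      · rw [if_pos h, if_pos h.symm, hN.hs x y, mul_comm (κ x)]
      · rw [if_neg h, if_neg (fun h' => h h'.symm)]

end Pool.Agent.AFJ.H44
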